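import Mathlib
import Pool.Agent.Lib.MP_57350d_an.Core

/-!
# Every outer function in `D^p_{p-1}`, `p > 2`, is cyclic in `D^p_{p-1}`

`D^p_{p-1}` is the space of all `f` holomorphic on the unit disc with
`|f(0)| + (∫_𝔻 (1-|z|)^{p-1} |f'(z)|^p dA(z))^{1/p} < ∞`.
-/

open MeasureTheory Set Filter Metric Topology

namespace Pool.Agent.Results.MP_57350d_an.OuterCyclic

/-- The energy `∫_𝔻 (1-|z|)^{p-1} |f'(z)|^p dA(z)`, where `𝔻` is the open unit disc and `dA` is
area measure (Lebesgue measure of the plane); a number in `[0,∞]`. -/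
noncomputable def energy (p : ℝ) (f : ℂ → ℂ) : ENNReal :=
  ∫⁻ z in ball (0 : ℂ) 1, ENNReal.ofReal ((1 - ‖z‖) ^ (p - 1) * ‖deriv f z‖ ^ p)

/-- The norm `|f(0)| + (∫_𝔻 (1-|z|)^{p-1} |f'(z)|^p dA(z))^{1/p}` of `D^p_{p-1}`,
a number in `[0,∞]`. -/
noncomputable def dNorm (p : ℝ) (f : ℂ → ℂ) : ENNReal :=
  ENNReal.ofReal ‖f 0‖ + energy p f ^ (1 / p)

/-- Membership in `D^p_{p-1}`: `f` is holomorphic on the open unit disc and its norm is finite. -/
def MemD (p : ℝ) (f : ℂ → ℂ) : Prop :=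
  DifferentiableOn ℂ f (ball 0 1) ∧ dNorm p f < ⊤

/-- `f` is cyclic in `D^p_{p-1}`: there are polynomials `q n` with `‖q n * f - 1‖ → 0`. -/
def IsCyclicD (p : ℝ) (f : ℂ → ℂ) : Prop :=
  ∃ q : ℕ → Polynomial ℂ,
    Tendsto (fun n => dNorm p (fun z => (q n).eval z * f z - 1)) atTop (𝓝 0)

/-- `f` is outer on the unit disc: `f = c exp ((1/2π) ∫_0^{2π} (e^{iθ}+z)/(e^{iθ}-z) log k(θ) dθ)`
with `|c| = 1` and `k ≥ 0` measurable, `log k ∈ L¹` (so `k > 0` almost everywhere). -/
def IsOuter (f : ℂ → ℂ) : Prop :=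
  ∃ (c : ℂ) (k : ℝ → ℝ), ‖c‖ = 1 ∧ Measurable k ∧ (∀ θ, 0 ≤ k θ) ∧
    (∀ᵐ θ ∂(volume.restrict (Ioc 0 (2 * Real.pi))), 0 < k θ) ∧
    IntegrableOn (fun θ => Real.log (k θ)) (Ioc 0 (2 * Real.pi)) ∧
    ∀ z ∈ ball (0 : ℂ) 1, f z = c * Complex.exp ((1 / (2 * Real.pi)) *
      ∫ θ in (0 : ℝ)..(2 * Real.pi),
        (Complex.exp (θ * Complex.I) + z) / (Complex.exp (θ * Complex.I) - z) *
          (Real.log (k θ) : ℂ))

open Pool.Agent.Lib.MP_57350d_an

lemma energy_eq {p : ℝ} (hp : 0 < p) (f : ℂ → ℂ) :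
    energy p f = ∫⁻ z, ‖deriv f z‖ₑ ^ p ∂(nu p) := by
  rw [lintegral_nu]
  unfold energy
  apply setLIntegral_congr_fun measurableSet_ball
  intro z hz
  have hz1 : ‖z‖ < 1 := by simpa using hz
  have h1z : 0 < 1 - ‖z‖ := by linarith
  simp only
  rw [wt, ← ofReal_norm, ENNReal.ofReal_rpow_of_nonneg (norm_nonneg _) hp.le,
    ← ENNReal.ofReal_mul (by positivity)]

lemma energy_rpow_eq {p : ℝ} (hp : 0 < p) (f : ℂ → ℂ) :
    energy p f ^ (1 / p) = eLpNorm (deriv f) (ENNReal.ofReal p) (nu p) := by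
  rw [energy_eq hp, eLpNorm_eq_lintegral_rpow_enorm_toReal (by simpa using hp)
    ENNReal.ofReal_ne_top, ENNReal.toReal_ofReal hp.le]

/-- **Main theorem.** For every `p > 2`, every outer function in `D^p_{p-1}` is cyclic in
`D^p_{p-1}`. -/
theorem result : ∀ p : ℝ, 2 < p → ∀ f : ℂ → ℂ, MemD p f → IsOuter f → IsCyclicD p f := by
  intro p hp f hf hout
  have hp0 : 0 < p := by linarith
  have hp1 : 1 < p := by linarith
  have hP1 : 1 ≤ ENNReal.ofReal p := by
    rw [← ENNReal.ofReal_one]; exact ENNReal.ofReal_le_ofReal hp1.le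
  obtain ⟨hfd, hfn⟩ := hf
  obtain ⟨c, k, hc, hkm, hk0, -, hint, hform⟩ := hout
  have hpi : 0 < 2 * Real.pi := by positivity
  -- f' ∈ L^p
  have hf' : MemLp (deriv f) (ENNReal.ofReal p) (nu p) := by
    refine ⟨(measurable_deriv f).aestronglyMeasurable, ?_⟩
    rw [← energy_rpow_eq hp0]
    exact lt_of_le_of_lt le_add_self hfn
  set u : ℝ → ℝ := fun θ => Real.log (k θ) with hu
  have hum : Measurable u := Real.measurable_log.comp hkm
  have hui : IntervalIntegrable u volume 0 (2 * Real.pi) := by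
    rw [intervalIntegrable_iff_integrableOn_Ioc_of_le hpi.le]; exact hint
  have hform' : ∀ z ∈ ball (0 : ℂ) 1, f z = c * Complex.exp (FU u z) := hform
  -- truncations
  set w : ℕ → ℝ → ℝ := fun n θ => min (-u θ) n with hw
  set v : ℕ → ℝ → ℝ := fun n θ => -(max (-u θ - n) 0) with hv
  have huvw : ∀ n θ, u θ + w n θ = v n θ := by
    intro n θ
    simp only [hw, hv]
    rcases le_total (-u θ) n with h | h
    · rw [min_eq_left h, max_eq_right (by linarith)]; ring
    · rw [min_eq_right h, max_eq_left (by linarith)]; ring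
  have hvm : ∀ n, Measurable (v n) := by
    intro n; simp only [hv]; fun_prop
  have hvbd : ∀ n θ, ‖v n θ‖ ≤ ‖u θ‖ := by
    intro n θ
    simp only [hv]
    rw [norm_neg, Real.norm_eq_abs, Real.norm_eq_abs, abs_of_nonneg (le_max_right _ _)]
    apply max_le _ (abs_nonneg _)
    have := neg_le_abs (u θ)
    have h2 : (0:ℝ) ≤ n := Nat.cast_nonneg n
    linarith
  have hvi : ∀ n, IntervalIntegrable (v n) volume 0 (2 * Real.pi) := by
    intro n
    apply hui.mono_fun (hvm n).aestronglyMeasurable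
    exact Eventually.of_forall (hvbd n)
  have hwi : ∀ n, IntervalIntegrable (w n) volume 0 (2 * Real.pi) := by
    intro n
    have : w n = fun θ => v n θ - u θ := by
      ext θ; rw [← huvw n θ]; ring
    rw [this]
    exact (hvi n).sub hui
  -- the multipliers and products
  set h : ℕ → ℂ → ℂ := fun n z => (starRingEnd ℂ) c * Complex.exp (FU (w n) z) with hh
  set G : ℕ → ℂ → ℂ := fun n z => Complex.exp (FU (v n) z) with hG
  have hcc : c * (starRingEnd ℂ) c = 1 := by
    rw [Complex.mul_conj, Complex.normSq_eq_norm_sq, hc]; norm_num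
  have hfh : ∀ n, ∀ z ∈ ball (0 : ℂ) 1, f z * h n z = G n z := by
    intro n z hz
    simp only [hh, hG]
    rw [hform' z hz]
    have e : FU (v n) z = FU u z + FU (w n) z := by
      rw [← FU_add hui (hwi n) hz]
      congr 1
      ext θ
      exact (huvw n θ).symm
    rw [e, Complex.exp_add]
    calc c * Complex.exp (FU u z) * ((starRingEnd ℂ) c * Complex.exp (FU (w n) z)) =
        (c * (starRingEnd ℂ) c) * (Complex.exp (FU u z) * Complex.exp (FU (w n) z)) := by ring
      _ = _ := by rw [hcc, one_mul]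
  have hhd : ∀ n, DifferentiableOn ℂ (h n) (ball 0 1) := fun n =>
    ((FU_diff (hwi n)).cexp).const_mul _
  have hGd : ∀ n, DifferentiableOn ℂ (G n) (ball 0 1) := fun n => (FU_diff (hvi n)).cexp
  have hhb : ∀ n, ∀ z ∈ ball (0 : ℂ) 1, ‖h n z‖ ≤ Real.exp n := by
    intro n z hz
    simp only [hh]
    rw [norm_mul, RCLike.norm_conj, hc, one_mul, Complex.norm_exp]
    apply Real.exp_le_exp.mpr
    exact FU_re_le (hwi n) (fun θ => min_le_right _ _) hz
  have hGb : ∀ n, ∀ z ∈ ball (0 : ℂ) 1, ‖G n z‖ ≤ 1 := by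
    intro n z hz
    simp only [hG]
    rw [Complex.norm_exp, ← Real.exp_zero]
    apply Real.exp_le_exp.mpr
    apply FU_re_le (hvi n) (fun θ => ?_) hz
    simp only [hv]
    linarith [le_max_right (-u θ - n) 0]
  have hGe : ∀ n, eLpNorm (deriv (G n)) (ENNReal.ofReal p) (nu p) ≤
      (ENNReal.ofReal (Real.pi / 2 * (1 - ‖G n 0‖ ^ 2))) ^ (1 / p) := by
    intro n
    rw [← energy_rpow_eq hp0, energy_eq hp0]
    gcongr
    exact energy_p_bound hp.le (hGd n) (hGb n)
  have hderiv : ∀ n, deriv (fun z => f z * h n z) =ᵐ[nu p] deriv (G n) := by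
    intro n
    filter_upwards [ae_mem_ball p] with z hz
    apply Filter.EventuallyEq.deriv_eq
    filter_upwards [isOpen_ball.mem_nhds hz] with x hx using hfh n x hx
  have hfhL : ∀ n, MemLp (deriv (fun z => f z * h n z)) (ENNReal.ofReal p) (nu p) := by
    intro n
    rw [memLp_congr_ae (hderiv n)]
    refine ⟨(measurable_deriv _).aestronglyMeasurable, lt_of_le_of_lt (hGe n) ?_⟩
    exact ENNReal.rpow_lt_top_of_nonneg (by positivity) ENNReal.ofReal_ne_top
  -- limits
  have hlim_int : Tendsto (fun n => ∫ θ in (0 : ℝ)..(2 * Real.pi), v n θ) atTop (𝓝 0) := by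
    have h0 : ∫ θ in (0 : ℝ)..(2 * Real.pi), (0:ℝ) = 0 := by simp
    suffices hs : Tendsto (fun n => ∫ θ in (0 : ℝ)..(2 * Real.pi), v n θ) atTop
        (𝓝 (∫ θ in (0 : ℝ)..(2 * Real.pi), (0:ℝ))) by rwa [h0] at hs
    apply intervalIntegral.tendsto_integral_filter_of_dominated_convergence (fun θ => ‖u θ‖)
    · exact Eventually.of_forall (fun n => (hvm n).aestronglyMeasurable)
    · exact Eventually.of_forall (fun n => Eventually.of_forall (fun θ _ => hvbd n θ))
    · exact hui.norm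
    · apply Eventually.of_forall
      intro θ _
      apply tendsto_const_nhds.congr'
      filter_upwards [eventually_ge_atTop (Nat.ceil (|u θ|))] with n hn
      have h1 : |u θ| ≤ n := (Nat.le_ceil _).trans (by exact_mod_cast hn)
      have h2 := neg_le_abs (u θ)
      simp only [hv]
      rw [max_eq_right (by linarith)]
      simp
  have hG0 : Tendsto (fun n => G n 0) atTop (𝓝 1) := by
    have h1 : Tendsto (fun n => ((((1 / (2 * Real.pi)) * ∫ θ in (0:ℝ)..(2 * Real.pi), v n θ : ℝ)) : ℂ))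
        atTop (𝓝 (((1 / (2 * Real.pi)) * 0 : ℝ) : ℂ)) :=
      (Complex.continuous_ofReal.tendsto _).comp (hlim_int.const_mul _)
    have h2 := (Complex.continuous_exp.tendsto _).comp h1
    simp only [mul_zero, Complex.ofReal_zero, Complex.exp_zero] at h2
    refine h2.congr ?_
    intro n
    simp only [Function.comp_apply, hG]
    rw [FU_zero]
  have hen : Tendsto (fun n => (ENNReal.ofReal (Real.pi / 2 * (1 - ‖G n 0‖ ^ 2))) ^ (1 / p))
      atTop (𝓝 0) := by
    have h1 : Tendsto (fun n => ENNReal.ofReal (Real.pi / 2 * (1 - ‖G n 0‖ ^ 2))) atTop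
        (𝓝 (ENNReal.ofReal (Real.pi / 2 * (1 - ‖(1:ℂ)‖ ^ 2)))) := by
      apply ENNReal.tendsto_ofReal
      apply Tendsto.const_mul
      exact tendsto_const_nhds.sub ((hG0.norm).pow 2)
    simp only [norm_one, one_pow, sub_self, mul_zero, ENNReal.ofReal_zero] at h1
    have h5 : Tendsto (fun x : ENNReal => x ^ (1/p)) (𝓝 0) (𝓝 0) := by
      have := (ENNReal.continuous_rpow_const (y := 1/p)).tendsto 0
      simpa [hp0] using this
    exact h5.comp h1
  -- epsilon form
  have main : ∀ ε : ℝ, 0 < ε → ∃ q : Polynomial ℂ,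
      dNorm p (fun z => q.eval z * f z - 1) ≤ ENNReal.ofReal ε := by
    intro ε hε
    have hε4 : 0 < ε / 4 := by linarith
    have e1 : ∀ᶠ n in atTop, ‖G n 0 - 1‖ ≤ ε / 4 := by
      have h1 : Tendsto (fun n => ‖G n 0 - 1‖) atTop (𝓝 0) := by
        have := (hG0.sub_const 1).norm
        simpa using this
      exact h1.eventually_le_const hε4
    have e2 : ∀ᶠ n in atTop, (ENNReal.ofReal (Real.pi / 2 * (1 - ‖G n 0‖ ^ 2))) ^ (1 / p) ≤
        ENNReal.ofReal (ε / 4) := by
      apply hen.eventually_le_const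
      simpa using hε4
    obtain ⟨n, hn1, hn2⟩ := (e1.and e2).exists
    obtain ⟨q, hq1, hq2⟩ := exists_poly_close hp1 hfd hf' (hhd n) (hhb n) (hfhL n) hε4
    refine ⟨q, ?_⟩
    unfold dNorm
    rw [energy_rpow_eq hp0]
    have b1 : ENNReal.ofReal ‖q.eval 0 * f 0 - 1‖ ≤ ENNReal.ofReal (ε / 2) := by
      apply ENNReal.ofReal_le_ofReal
      have h0 := hfh n 0 (by simp)
      calc ‖q.eval 0 * f 0 - 1‖ = ‖(q.eval 0 * f 0 - f 0 * h n 0) + (G n 0 - 1)‖ := by
            rw [h0]; ring_nf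
        _ ≤ ‖q.eval 0 * f 0 - f 0 * h n 0‖ + ‖G n 0 - 1‖ := norm_add_le _ _
        _ ≤ ε / 2 := by linarith
    have b2 : eLpNorm (deriv (fun z => q.eval z * f z - 1)) (ENNReal.ofReal p) (nu p) ≤
        ENNReal.ofReal (ε / 2) := by
      have e : deriv (fun z => q.eval z * f z - 1) =ᵐ[nu p]
          deriv (fun z => q.eval z * f z - f z * h n z) + deriv (G n) := by
        filter_upwards [ae_mem_ball p] with z hz
        have dF : DifferentiableAt ℂ f z := hfd.differentiableAt (isOpen_ball.mem_nhds hz)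
        have dh : DifferentiableAt ℂ (h n) z := (hhd n).differentiableAt (isOpen_ball.mem_nhds hz)
        have d1 : DifferentiableAt ℂ (fun z => q.eval z * f z) z :=
          q.differentiable.differentiableAt.mul dF
        have d2 : DifferentiableAt ℂ (fun z => f z * h n z) z := dF.mul dh
        have dG : deriv (G n) z = deriv (fun z => f z * h n z) z := by
          apply Filter.EventuallyEq.deriv_eq
          filter_upwards [isOpen_ball.mem_nhds hz] with x hx using (hfh n x hx).symm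
        rw [Pi.add_apply, dG, deriv_fun_sub d1 d2, deriv_sub_const]
        ring
      rw [eLpNorm_congr_ae e]
      calc _ ≤ eLpNorm (deriv (fun z => q.eval z * f z - f z * h n z)) (ENNReal.ofReal p) (nu p) +
            eLpNorm (deriv (G n)) (ENNReal.ofReal p) (nu p) :=
            eLpNorm_add_le (measurable_deriv _).aestronglyMeasurable
              (measurable_deriv _).aestronglyMeasurable hP1
        _ ≤ ENNReal.ofReal (ε / 4) + ENNReal.ofReal (ε / 4) :=
            add_le_add hq2 ((hGe n).trans hn2)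
        _ = ENNReal.ofReal (ε / 2) := by
            rw [← ENNReal.ofReal_add hε4.le hε4.le]; congr 1; ring
    calc _ ≤ ENNReal.ofReal (ε / 2) + ENNReal.ofReal (ε / 2) := add_le_add b1 b2
      _ = ENNReal.ofReal ε := by
          rw [← ENNReal.ofReal_add (by linarith) (by linarith)]; congr 1; ring
  choose q hq using fun n : ℕ => main (1 / ((n : ℝ) + 1)) (by positivity)
  refine ⟨q, ?_⟩
  have hlim : Tendsto (fun n : ℕ => ENNReal.ofReal (1 / ((n : ℝ) + 1))) atTop (𝓝 0) := by
    have := ENNReal.tendsto_ofReal tendsto_one_div_add_atTop_nhds_zero_nat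
    simpa using this
  exact tendsto_of_tendsto_of_tendsto_of_le_of_le tendsto_const_nhds hlim (fun _ => bot_le) hq

end Pool.Agent.Results.MP_57350d_an.OuterCyclic
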